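import Pool.Agent.helper19.HF.SpecC

/-!
# UNZ (project HF, MP_bf63dc_nt): `a h₀ - b h₁ = c` with `h₀`, `h₁` prime to `D`
-/

set_option autoImplicit false

namespace Pool.Agent.HF

open Finset Pool.Agent.AT Pool.Agent.IT

theorem UNZ_cop (h : ℤ) (D : ℕ) (H : ∀ l : ℕ, l.Prime → l ∣ D → ¬ (l : ℤ) ∣ h) : IsCoprime h (D : ℤ) := by
  rw [Int.isCoprime_iff_gcd_eq_one]
  by_contra hne
  obtain ⟨l, hl, hdvd⟩ := Nat.exists_prime_and_dvd hne
  have h1 : (l : ℤ) ∣ (Int.gcd h (D : ℤ) : ℤ) := Int.natCast_dvd_natCast.2 hdvd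
  have h2 : (l : ℤ) ∣ h := h1.trans (Int.gcd_dvd_left h (D : ℤ))
  have h3 : (l : ℤ) ∣ (D : ℤ) := h1.trans (Int.gcd_dvd_right h (D : ℤ))
  exact H l hl (Int.natCast_dvd_natCast.1 h3) h2

theorem UNZ_not {l : ℤ} (hp : Prime l) {u v : ℤ} (h : IsCoprime u v) (hu : l ∣ u) : ¬ l ∣ v := by
  intro hv
  exact hp.not_isUnit (h.isUnit_of_dvd' hu hv)

theorem UNZ_loc (a b c x y : ℤ) (l : ℕ) (hl : l.Prime) (hxy : a * x - b * y = c) (hab : IsCoprime a b) (hac : IsCoprime a c) (hbc : IsCoprime b c)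
    (hodd : ¬ (Odd a ∧ Odd b ∧ Odd c)) : ∃ t : ℕ, ¬ (l : ℤ) ∣ x + b * t ∧ ¬ (l : ℤ) ∣ y + a * t := by
  have hp : Prime (l : ℤ) := Nat.prime_iff_prime_int.1 hl
  by_cases hla : (l : ℤ) ∣ a
  · have hlb : ¬ (l : ℤ) ∣ b := UNZ_not hp hab hla
    have hlc : ¬ (l : ℤ) ∣ c := UNZ_not hp hac hla
    have hy : ∀ t : ℕ, ¬ (l : ℤ) ∣ y + a * t := by
      intro t ht
      have h1 : (l : ℤ) ∣ y := (dvd_add_left (hla.mul_right _)).1 ht
      exact hlc (by rw [← hxy]; exact dvd_sub (hla.mul_right _) (h1.mul_left _))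
    by_cases hx : (l : ℤ) ∣ x
    · refine ⟨1, ?_, hy 1⟩
      intro h1
      rw [Nat.cast_one, mul_one] at h1
      exact hlb ((dvd_add_right hx).1 h1)
    · refine ⟨0, ?_, hy 0⟩
      simpa using hx
  by_cases hlb : (l : ℤ) ∣ b
  · have hlc : ¬ (l : ℤ) ∣ c := UNZ_not hp hbc hlb
    have hx : ∀ t : ℕ, ¬ (l : ℤ) ∣ x + b * t := by
      intro t ht
      have h1 : (l : ℤ) ∣ x := (dvd_add_left (hlb.mul_right _)).1 ht
      exact hlc (by rw [← hxy]; exact dvd_sub (h1.mul_left _) (hlb.mul_right _))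
    by_cases hy : (l : ℤ) ∣ y
    · refine ⟨1, hx 1, ?_⟩
      intro h1
      rw [Nat.cast_one, mul_one] at h1
      exact hla ((dvd_add_right hy).1 h1)
    · refine ⟨0, hx 0, ?_⟩
      simpa using hy
  by_cases h2 : l = 2
  · subst h2
    have ha : Odd a := by
      rw [← Int.not_even_iff_odd, even_iff_two_dvd]
      exact_mod_cast hla
    have hb : Odd b := by
      rw [← Int.not_even_iff_odd, even_iff_two_dvd]
      exact_mod_cast hlb
    have hc : Even c := by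
      rw [← Int.not_odd_iff_even]
      exact fun hc => hodd ⟨ha, hb, hc⟩
    obtain ⟨a', rfl⟩ := ha
    obtain ⟨b', rfl⟩ := hb
    obtain ⟨c', rfl⟩ := hc
    rcases Int.even_or_odd' x with ⟨x', hx | hx⟩
    · have hy : ∃ y', y = 2 * y' := ⟨a' * x + x' - b' * y - c', by subst hx; linarith⟩
      obtain ⟨y', hy⟩ := hy
      refine ⟨1, ?_, ?_⟩
      · rw [hx]; push_cast; omega
      · rw [hy]; push_cast; omega
    · have hy : ∃ y', y = 2 * y' + 1 := ⟨a' * x + x' - b' * y - c', by subst hx; linarith⟩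
      obtain ⟨y', hy⟩ := hy
      refine ⟨0, ?_, ?_⟩
      · rw [hx]; push_cast; omega
      · rw [hy]; push_cast; omega
  · have h22 : ¬ (l : ℤ) ∣ 2 := by
      intro h
      have h3 : l ∣ 2 := by exact_mod_cast h
      exact h2 ((Nat.prime_dvd_prime_iff_eq hl Nat.prime_two).1 h3)
    by_contra hcon
    have h3 : ∀ t : ℕ, (l : ℤ) ∣ x + b * t ∨ (l : ℤ) ∣ y + a * t := by
      intro t
      by_contra h4
      rw [not_or] at h4
      exact hcon ⟨t, h4⟩
    have k0 := h3 0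
    have k1 := h3 1
    have k2 := h3 2
    rw [Nat.cast_zero, mul_zero, mul_zero, add_zero, add_zero] at k0
    rw [Nat.cast_one, mul_one, mul_one] at k1
    have e2 : ((2 : ℕ) : ℤ) = 2 := rfl
    rw [e2] at k2
    have key : ∀ z w : ℤ, ¬ (l : ℤ) ∣ w → ((l : ℤ) ∣ z → (l : ℤ) ∣ z + w → False) ∧ ((l : ℤ) ∣ z → (l : ℤ) ∣ z + w * 2 → False) ∧ ((l : ℤ) ∣ z + w → (l : ℤ) ∣ z + w * 2 → False) := by
      intro z w hw
      refine ⟨fun p q => hw ((dvd_add_right p).1 q), fun p q => ?_, fun p q => ?_⟩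
      · rcases hp.dvd_or_dvd ((dvd_add_right p).1 q) with h | h
        · exact hw h
        · exact h22 h
      · have e : z + w * 2 = (z + w) + w := by ring
        rw [e] at q
        exact hw ((dvd_add_right p).1 q)
    obtain ⟨x1, x2, x3⟩ := key x b hlb
    obtain ⟨y1, y2, y3⟩ := key y a hla
    rcases k0 with k0 | k0 <;> rcases k1 with k1 | k1 <;> rcases k2 with k2 | k2
    · exact x1 k0 k1
    · exact x1 k0 k1
    · exact x2 k0 k2
    · exact y3 k1 k2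
    · exact x3 k1 k2
    · exact y2 k0 k2
    · exact y1 k0 k1
    · exact y1 k0 k1

theorem UNZ : UNZ_stmt := by
  intro a b D c hD hAd
  obtain ⟨ha, hb, hc0, hab, hac, hbc, hodd⟩ := hAd
  have habz : IsCoprime (a : ℤ) (b : ℤ) := Nat.isCoprime_iff_coprime.2 hab
  obtain ⟨u, v, huv⟩ := id habz
  obtain ⟨x, hx⟩ : ∃ x : ℤ, x = u * c := ⟨_, rfl⟩
  obtain ⟨y, hy⟩ : ∃ y : ℤ, y = -(v * c) := ⟨_, rfl⟩
  have hxy : (a : ℤ) * x - b * y = c := by
    rw [hx, hy]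
    linear_combination c * huv
  have hodd' : ¬ (Odd (a : ℤ) ∧ Odd (b : ℤ) ∧ Odd c) := by
    rintro ⟨h1, h2, h3⟩
    exact hodd ⟨by exact_mod_cast h1, by exact_mod_cast h2, h3⟩
  have hloc : ∀ l : ℕ, ∃ t : ℕ, l.Prime → ¬ (l : ℤ) ∣ x + b * t ∧ ¬ (l : ℤ) ∣ y + a * t := by
    intro l
    by_cases hl : l.Prime
    · obtain ⟨t, ht⟩ := UNZ_loc a b c x y l hl hxy habz hac hbc hodd'
      exact ⟨t, fun _ => ht⟩
    · exact ⟨0, fun h => absurd h hl⟩
  choose f hf using hloc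
  obtain ⟨k, hk⟩ := Nat.chineseRemainderOfFinset f (fun l => l) D.primeFactors
    (fun l hl => (Nat.prime_of_mem_primeFactors hl).ne_zero)
    (fun l hl l' hl' hne => (Nat.coprime_primes (Nat.prime_of_mem_primeFactors hl) (Nat.prime_of_mem_primeFactors hl')).2 hne)
  have hD0 : D ≠ 0 := by omega
  have hgood : ∀ l : ℕ, l.Prime → l ∣ D → ¬ (l : ℤ) ∣ x + b * k ∧ ¬ (l : ℤ) ∣ y + a * k := by
    intro l hl hlD
    obtain ⟨h1, h2⟩ := hf l hl
    have h3 : (l : ℤ) ∣ (k : ℤ) - (f l : ℤ) := by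
      have h4 := hk l (Nat.mem_primeFactors.2 ⟨hl, hlD, hD0⟩)
      exact (Nat.modEq_iff_dvd.1 h4.symm)
    constructor
    · intro h
      refine h1 ?_
      have e : x + (b : ℤ) * (f l : ℤ) = (x + b * k) - b * ((k : ℤ) - (f l : ℤ)) := by ring
      rw [e]
      exact dvd_sub h (h3.mul_left _)
    · intro h
      refine h2 ?_
      have e : y + (a : ℤ) * (f l : ℤ) = (y + a * k) - a * ((k : ℤ) - (f l : ℤ)) := by ring
      rw [e]
      exact dvd_sub h (h3.mul_left _)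
  refine ⟨x + b * k, y + a * k, ?_, UNZ_cop _ _ fun l hl hd => (hgood l hl hd).1, UNZ_cop _ _ fun l hl hd => (hgood l hl hd).2⟩
  linear_combination hxy

end Pool.Agent.HF
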